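import Pool.Agent.Helper74.CK.Defs
import Pool.Agent.Helper64.CJ.BdL

/-!
# CK-BND: the bound

`c = F_i(y) ≠ 0`, `F_i(x_m y - y_m x) = x_m ^ (d i) c`, `ExpG` with `t ≥ 2`: for all `j`, `l` the function
`G ^ (d i) * c * pl x y j l` is bounded: where `x_m` and `pl x y j' l'` are maximal it is
`(G pl' ^ t / x_m) ^ (d i) * (F_i(q_m) / pl' ^ (d i)) * (pl / pl') * (pl_(0β) / pl') ^ ((t - 1) d_i - 1)`,
`q_m = (pl x y m j)_j` (`pl_(0β) = 1`). `bdl_mem`, `bdl_mul`, `bdl_at`, `bdl_ratio`, `bdl_pow` of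
`Helper64/CJ/BdL.lean`; then `lin_mem2` for the vector `G ^ (d i) * c • y`.
-/

set_option autoImplicit false

namespace Pool.Agent.Helper74.CK

open scoped BigOperators
open MvPolynomial
open Pool.Agent.Helper8.LG (Bdd form mon Ix)
open Pool.Agent.Helper49.LN (cP mo hf pl)
open Pool.Agent.Helper6.QS (dv ev lf dt Par RatP)
open Pool.Agent.Helper10.CI

section

variable {Ω : Type*} [Field Ω] [CharZero Ω] {N r : ℕ} {d : Fin r → ℕ}
  {D : Ix (Fin (N + 1)) d → Derivation ℤ Ω Ω} {a : Ix (Fin (N + 1)) d → Ω} {B : Subfield Ω}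
  {x y w : Fin (N + 1) → Ω} {β : Fin (N + 1)}

theorem bnd_form_div {n : ℕ} (b : Sym (Fin (N + 1)) n → Ω) (z : Fin (N + 1) → Ω) (c : Ω) :
    form b (fun l => z l / c) = form b z / c ^ n := by
  unfold form
  rw [Finset.sum_div]
  refine Finset.sum_congr rfl fun J _ => ?_
  have h1 : mon (fun l => z l / c) J = mon z J / c ^ n := by
    unfold mon
    rw [Multiset.prod_map_div]
    congr 1
    rw [Multiset.map_const', Multiset.prod_replicate]
    congr 1
    exact J.2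
  rw [h1, mul_div_assoc]

theorem bnd_form (hB : Frame D a B) (i : Fin r) (m j l : Fin (N + 1)) :
    Pool.Agent.Helper64.CJ.BddL D B x y m j l
      (form (fun J => a ⟨i, J⟩) (fun k => pl x y m k) / pl x y j l ^ d i) := by
  classical
  rw [← bnd_form_div]
  refine ⟨Finset.univ.image (fun J : Sym (Fin (N + 1)) (d i) => a ⟨i, J⟩), 1, ?_,
    fun O Δ _ hsO _ _ _ hpl => ?_⟩
  · intro b hb
    obtain ⟨J, -, rfl⟩ := Finset.mem_image.1 hb
    exact hB.mem _
  · rw [pow_one]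
    unfold form
    rw [Finset.mul_sum]
    refine O.toSubring.sum_mem fun J _ => ?_
    rw [← mul_assoc]
    refine O.toSubring.mul_mem (hsO _ (Finset.mem_image.2 ⟨J, Finset.mem_univ _, rfl⟩)) ?_
    unfold mon
    refine multiset_prod_mem _ fun c hc => ?_
    obtain ⟨k, _, rfl⟩ := Multiset.mem_map.1 hc
    exact hpl m k

theorem bnd_alg {G c p P X : Ω} {d e k : ℕ} (hk : k = d + 1 + e) (hP : P ≠ 0) (hX : X ≠ 0) :
    G ^ d * c * p = G ^ d * P ^ k / X ^ d * (X ^ d * c / P ^ d) * (p / P) * (1 / P) ^ e := by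
  rw [hk, pow_add, pow_add, pow_one, div_pow, one_pow]
  have h1 : P ^ d ≠ 0 := pow_ne_zero _ hP
  have h2 : P ^ e ≠ 0 := pow_ne_zero _ hP
  have h3 : X ^ d ≠ 0 := pow_ne_zero _ hX
  field_simp

theorem bnd (hB : Frame D a B) (hd : ∀ i, 1 ≤ d i) (hnum : ∑ i, (d i + 1) + 1 = 2 * N)
    (hx : x 0 = 1) (hF : ∀ i, form (fun J => a ⟨i, J⟩) x = 0) (hy : y 0 = 0) (hβ : y β = 1)
    (i : Fin r) (hc : form (fun J => a ⟨i, J⟩) y ≠ 0)
    (hq : ∀ m, form (fun J => a ⟨i, J⟩) (fun l => pl x y m l) =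
      x m ^ d i * form (fun J => a ⟨i, J⟩) y)
    (t : ℕ) (ht : 2 ≤ t) (hG : Pool.Agent.Helper64.CJ.ExpG D B x y t) : ∀ l, x l ∈ B := by
  obtain ⟨G, hG0, hG⟩ := hG
  have h0β : pl x y 0 β = 1 := by
    unfold pl
    rw [hx, hβ, hy]
    ring
  set c := form (fun J => a ⟨i, J⟩) y with hcdef
  have hpl : ∀ j l, pl x (fun k => G ^ d i * c * y k) j l = G ^ d i * c * pl x y j l := by
    intro j l
    unfold pl
    ring
  have hne : ∃ j l, pl x y j l ≠ 0 := ⟨0, β, by rw [h0β]; exact one_ne_zero⟩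
  refine Pool.Agent.Helper64.CJ.lin_mem2 hB hnum x hx hF (fun k => G ^ d i * c * y k)
    ⟨0, β, ?_⟩ fun j l => ?_
  · rw [hpl, h0β, mul_one]
    exact mul_ne_zero (pow_ne_zero _ hG0) hc
  · rw [hpl]
    refine Pool.Agent.Helper64.CJ.bdl_mem hB hx hne _ fun m j' l' hm hp => ?_
    obtain ⟨e, he⟩ : ∃ e, t * d i = d i + 1 + e := by
      have h1 := hd i
      have h2 : 2 * d i ≤ t * d i := Nat.mul_le_mul_right _ ht
      exact ⟨t * d i - (d i + 1), by omega⟩
    have h3 : G ^ d i * c * pl x y j l = (G * pl x y j' l' ^ t / x m) ^ d i *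
        (form (fun J => a ⟨i, J⟩) (fun k => pl x y m k) / pl x y j' l' ^ d i) *
          (pl x y j l / pl x y j' l') * (pl x y 0 β / pl x y j' l') ^ e := by
      rw [hq m, h0β, div_pow, mul_pow, ← pow_mul]
      exact bnd_alg he hp hm
    rw [h3]
    refine Pool.Agent.Helper64.CJ.bdl_mul (Pool.Agent.Helper64.CJ.bdl_mul
      (Pool.Agent.Helper64.CJ.bdl_mul (Pool.Agent.Helper64.CJ.bdl_pow
        (Pool.Agent.Helper64.CJ.bdl_at (hG m hm j' l')) _) (bnd_form hB i m j' l'))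
      (Pool.Agent.Helper64.CJ.bdl_ratio j l)) (Pool.Agent.Helper64.CJ.bdl_pow
        (Pool.Agent.Helper64.CJ.bdl_ratio 0 β) e)

end

end Pool.Agent.Helper74.CK
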