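import Pool.Agent.Helper74.CK.Defs

/-!
# CK-CMX: the brackets of the derivations at `x`

`ε = [D_I, D_J]` kills the coefficients (`D_J a_K` is `0` or `1`), so `ε x` is tangent (`cm_TT`: as
`nu_dvC`, or `Chain_rule`/`form` directly: apply `ε` to `F_i(x) = 0`). Weight one (`cm_wt`): `x' = x / x_m`,
`ε x = x_m ε x' + (ε x_m / x_m) x`, and `Δ ^ 3 D_I D_J x' ∈ O`: `Δ D_J x' ∈ O`, `Δ D_I (Δ D_J x') ∈ O`,
`D_I (Δ D_J x') = (D_I Δ) D_J x' + Δ D_I D_J x'`, `Δ D_I Δ ∈ O`.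
-/

set_option autoImplicit false

namespace Pool.Agent.Helper74.CK

open scoped BigOperators
open MvPolynomial
open Pool.Agent.Helper8.LG (Bdd form mon Ix)
open Pool.Agent.Helper49.LN (cP mo hf pl)
open Pool.Agent.Helper6.QS (dv ev lf dt Par RatP)
open Pool.Agent.Helper10.CI

section

variable {Ω : Type*} [Field Ω] {N r : ℕ} {d : Fin r → ℕ}
  {D : Ix (Fin (N + 1)) d → Derivation ℤ Ω Ω} {a : Ix (Fin (N + 1)) d → Ω} {B : Subfield Ω}
  {x y w : Fin (N + 1) → Ω} {β : Fin (N + 1)}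

/-- a derivation which kills the coefficients moves `x` in a tangent direction -/
theorem Cmx_tan (ε : Derivation ℤ Ω Ω) (hε : ∀ s, ε (a s) = 0) (x : Fin (N + 1) → Ω)
    (hF : ∀ i, form (fun J => a ⟨i, J⟩) x = 0) (i : Fin r) :
    dt (nu a x i) (fun l => ε (x l)) = 0 := by
  have h3 : ε (form (fun J => a ⟨i, J⟩) x) = 0 := by rw [hF, map_zero]
  rw [form, map_sum] at h3
  have h4 : ∀ K : Sym (Fin (N + 1)) (d i), ε (a ⟨i, K⟩ * mon x K) =
      ∑ l, a ⟨i, K⟩ * eval x (pderiv l (mo Ω (K : Multiset (Fin (N + 1))))) * ε (x l) := by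
    intro K
    rw [Derivation.leibniz, smul_eq_mul, smul_eq_mul, hε, mul_zero, add_zero,
      Pool.Agent.Helper6.QS.ev_mon_eq, Pool.Agent.Helper6.QS.ev_der_mo, Finset.mul_sum]
    simp only [mul_assoc]
  simp only [h4] at h3
  have h5 : dt (nu a x i) (fun l => ε (x l)) =
      ∑ K : Sym (Fin (N + 1)) (d i),
        ∑ l, a ⟨i, K⟩ * eval x (pderiv l (mo Ω (K : Multiset (Fin (N + 1))))) * ε (x l) := by
    rw [Finset.sum_comm, dt]
    simp only [Ev_nu, Finset.sum_mul]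
  rw [h5]
  exact h3

theorem Cmx_eq (x : Fin (N + 1) → Ω) (I J : Ix (Fin (N + 1)) d) :
    cm D x I J = fun l => (⁅D I, D J⁆ : Derivation ℤ Ω Ω) (x l) := by
  funext l
  rw [Derivation.commutator_apply]
  rfl

theorem cm_TT (hB : Frame D a B) (x : Fin (N + 1) → Ω)
    (hF : ∀ i, form (fun J => a ⟨i, J⟩) x = 0) (I J : Ix (Fin (N + 1)) d) :
    cm D x I J ∈ TT a x := by
  have h0 : ∀ K L : Ix (Fin (N + 1)) d, ∀ s, D K (D L (a s)) = 0 := by
    intro K L s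
    rw [hB.dual]
    split_ifs
    · exact Derivation.map_one_eq_zero _
    · exact map_zero _
  have h1 : ∀ i, dt (nu a x i) (cm D x I J) = 0 := by
    intro i
    rw [Cmx_eq]
    refine Cmx_tan _ (fun s => ?_) x hF i
    rw [Derivation.commutator_apply, h0, h0, sub_zero]
  exact h1

/-- two derivations -/
theorem Cmx_two {O : ValuationSubring Ω} {Δ : Ω} (hΔ : Bdd D Δ O) (I J : Ix (Fin (N + 1)) d)
    {f : Ω} (hf : f ∈ O) : Δ ^ 3 * D I (D J f) ∈ O := by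
  have h1 : Δ * D J f ∈ O := hΔ.2 J f hf
  have h2 : Δ * D I (Δ * D J f) ∈ O := hΔ.2 I _ h1
  have h3 : Δ * D I Δ ∈ O := hΔ.2 I _ hΔ.1
  have h4 : Δ ^ 3 * D I (D J f) = Δ * (Δ * D I (Δ * D J f)) - (Δ * D I Δ) * (Δ * D J f) := by
    rw [Derivation.leibniz, smul_eq_mul, smul_eq_mul]
    ring
  rw [h4]
  exact O.toSubring.sub_mem (O.mul_mem _ _ hΔ.1 h2) (O.mul_mem _ _ h3 h1)

theorem cm_wt (B : Subfield Ω) (x : Fin (N + 1) → Ω) (I J : Ix (Fin (N + 1)) d) :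
    Wt D B x 1 (cm D x I J) := by
  refine ⟨∅, 3, fun b hb => absurd hb (Finset.notMem_empty b), fun O Δ hΔ _ m hm hmax => ?_⟩
  refine ⟨(⁅D I, D J⁆ : Derivation ℤ Ω Ω) (x m) / x m,
    fun l => (⁅D I, D J⁆ : Derivation ℤ Ω Ω) (x l / x m), ?_, fun l => ?_⟩
  · rw [Cmx_eq]
    funext l
    rw [Pi.add_apply, Pi.smul_apply, Pi.smul_apply, smul_eq_mul, smul_eq_mul, pow_one]
    have h1 : x l = x m * (x l / x m) := by
      rw [mul_div_cancel₀ _ hm]
    have h2 : (⁅D I, D J⁆ : Derivation ℤ Ω Ω) (x l) =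
        x m * (⁅D I, D J⁆ : Derivation ℤ Ω Ω) (x l / x m) +
          (x l / x m) * (⁅D I, D J⁆ : Derivation ℤ Ω Ω) (x m) := by
      conv_lhs => rw [h1]
      rw [Derivation.leibniz, smul_eq_mul, smul_eq_mul]
    rw [h2]
    ring
  · have h1 : Δ ^ 3 * (⁅D I, D J⁆ : Derivation ℤ Ω Ω) (x l / x m) =
        Δ ^ 3 * D I (D J (x l / x m)) - Δ ^ 3 * D J (D I (x l / x m)) := by
      rw [Derivation.commutator_apply, mul_sub]
    show Δ ^ 3 * (⁅D I, D J⁆ : Derivation ℤ Ω Ω) (x l / x m) ∈ O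
    rw [h1]
    exact O.toSubring.sub_mem (Cmx_two hΔ I J (hmax l)) (Cmx_two hΔ J I (hmax l))

theorem cm_LL (hB : Frame D a B) (h : LineW D a B x y w β) (I J : Ix (Fin (N + 1)) d) :
    cm D x I J ∈ LL x w :=
  h.W _ (cm_TT hB x h.F0 I J) (cm_wt B x I J)

end

end Pool.Agent.Helper74.CK
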