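import Pool.Agent.Helper74.CK.Defs

/-!
# CK-PSIL: modulo `L` only the restriction to the line matters

Copy of `Psi_diff`, `Psi_eq` of `Helper10/CI/Psi.lean` with `h.mem` in the place of `ht`.
-/

set_option autoImplicit false

namespace Pool.Agent.Helper74.CK

open scoped BigOperators
open MvPolynomial
open Pool.Agent.Helper8.LG (Bdd form mon Ix)
open Pool.Agent.Helper49.LN (cP mo hf pl)
open Pool.Agent.Helper6.QS (dv ev lf dt Par RatP)
open Pool.Agent.Helper10.CI

section

variable {Ω : Type*} [Field Ω] {N r : ℕ} {d : Fin r → ℕ}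
  {D : Ix (Fin (N + 1)) d → Derivation ℤ Ω Ω} {a : Ix (Fin (N + 1)) d → Ω} {B : Subfield Ω}
  {x y w : Fin (N + 1) → Ω} {β : Fin (N + 1)}

theorem psiL (h : LineW D a B x y w β) (g : Fin r → MvPolynomial (Fin (N + 1)) Ω) :
    dvC D x g - dvC D x (fun i => psi x y β (g i)) ∈ LL x w := by
  sorry

theorem psiL_zero (h : LineW D a B x y w β) (g : Fin r → MvPolynomial (Fin (N + 1)) Ω)
    (hg : ∀ i, psi x y β (g i) = 0) : dvC D x g ∈ LL x w := by
  sorry

/-- two tuples with the same restriction -/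
theorem psiL_congr (h : LineW D a B x y w β) (g g' : Fin r → MvPolynomial (Fin (N + 1)) Ω)
    (hg : ∀ i, psi x y β (g i) = psi x y β (g' i)) : dvC D x g - dvC D x g' ∈ LL x w := by
  sorry

theorem psiL_sv (h : LineW D a B x y w β) (P P' : Fin r → MvPolynomial (Fin (N + 1)) Ω)
    (hP : ∀ i, psi x y β (P i) = psi x y β (P' i)) :
    Sv D x P β - Sv D x P' β ∈ LL x w := by
  sorry

end

end Pool.Agent.Helper74.CK
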