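import Pool.Agent.Helper74.CK.DDx
import Pool.Agent.Helper74.CK.Cmx
import Pool.Agent.Helper74.CK.PsiL

/-!
# CK-BRK: the bracket relation

`g = z P`, `g' = z' P'` (`z`, `z'` linear forms vanishing at `x` and `y`), `D_g x = D_g' x = 0`. By `DD_br`
(all left sides vanish) and `cm_LL`: `D_(D_g(g')) x - D_(D_g'(g)) x ∈ L`. `Chain_mul`: `D_g(g') =
(D_g z') P' + z' D_g(P')`, and `psi` kills `z'` and sends `lf (D_g z')` to `- z'(D_g y) r_β`
(`D_g (z' . y) = 0`, `D_g (z' . x) = 0`, `D_g x = 0`); `psiL_congr`.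
-/

set_option autoImplicit false

namespace Pool.Agent.Helper74.CK

open scoped BigOperators
open MvPolynomial
open Pool.Agent.Helper8.LG (Bdd form mon Ix)
open Pool.Agent.Helper49.LN (cP mo hf pl)
open Pool.Agent.Helper6.QS (dv ev lf dt Par RatP)
open Pool.Agent.Helper10.CI

section

variable {Ω : Type*} [Field Ω] {N r : ℕ} {d : Fin r → ℕ}
  {D : Ix (Fin (N + 1)) d → Derivation ℤ Ω Ω} {a : Ix (Fin (N + 1)) d → Ω} {B : Subfield Ω}
  {x y w : Fin (N + 1) → Ω} {β : Fin (N + 1)}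

theorem psi_lf (x y : Fin (N + 1) → Ω) (β : Fin (N + 1)) (z : Fin (N + 1) → Ω) :
    psi x y β (lf z) = dt z x • X 0 + dt z y • rl x β := by
  sorry

theorem brk_one (h : LineW D a B x y w β) (δ : Derivation ℤ Ω Ω) (hδx : ∀ l, δ (x l) = 0)
    (z' : Fin (N + 1) → Ω) (hzx : dt z' x = 0) (hzy : dt z' y = 0)
    (P' : Fin r → MvPolynomial (Fin (N + 1)) Ω) :
    dvC D x (fun i => Chain_D δ (lf z' * P' i)) +
      dt z' (fun l => δ (y l)) • Sv D x P' β ∈ LL x w := by
  sorry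

theorem brk (hB : Frame D a B) (h : LineW D a B x y w β)
    (z z' : Fin (N + 1) → Ω) (hzx : dt z x = 0) (hzy : dt z y = 0)
    (hzx' : dt z' x = 0) (hzy' : dt z' y = 0)
    (P P' : Fin r → MvPolynomial (Fin (N + 1)) Ω)
    (hg : dvC D x (fun i => lf z * P i) = 0) (hg' : dvC D x (fun i => lf z' * P' i) = 0) :
    dt z' (fun l => DD D (fun i => lf z * P i) (y l)) • Sv D x P' β -
      dt z (fun l => DD D (fun i => lf z' * P' i) (y l)) • Sv D x P β ∈ LL x w := by
  sorry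

end

end Pool.Agent.Helper74.CK
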