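import Pool.Agent.Helper74.CK.PsiL

/-!
# CK-CHS: the choice of `P`

`z` vanishes on the line, so `dvC D x (z P) ∈ L` (`psiL_zero`), with coordinate `0` equal to `0`
(`D_g 1 = 0`), so it is a multiple of `w` (`LL_zero`): the `P` with `dvC D x (z P) = 0` have codimension
`≤ 1`. If all of them had `Sv D x P β ∈ S`, then `TT ≤ S + <one vector>` (`h.on`, `h.mem`), of dimension
`≤ finrank S + 1 < n + 1` (`finrank_TT`). One may take the parts of degree `d_i - 1` of the `P_i`
(`dv_part`, see `t_hom` in `Helper10/CI/Psi.lean`).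
-/

set_option autoImplicit false

namespace Pool.Agent.Helper74.CK

open scoped BigOperators
open MvPolynomial
open Pool.Agent.Helper8.LG (Bdd form mon Ix)
open Pool.Agent.Helper49.LN (cP mo hf pl)
open Pool.Agent.Helper6.QS (dv ev lf dt Par RatP)
open Pool.Agent.Helper10.CI

section

variable {Ω : Type*} [Field Ω] {N r n : ℕ} {d : Fin r → ℕ}
  {D : Ix (Fin (N + 1)) d → Derivation ℤ Ω Ω} {a : Ix (Fin (N + 1)) d → Ω} {B : Subfield Ω}
  {x y w : Fin (N + 1) → Ω} {β : Fin (N + 1)}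

theorem chs (hB : Frame D a B) (hn : n + r = N) (hd : ∀ i, 1 ≤ d i) (h : LineW D a B x y w β)
    (z : Fin (N + 1) → Ω) (hzx : dt z x = 0) (hzy : dt z y = 0)
    (S : Submodule Ω (Fin (N + 1) → Ω)) (hS : LL x w ≤ S)
    (hfr : Module.finrank Ω S + 2 ≤ n + 1) :
    ∃ P : Fin r → MvPolynomial (Fin (N + 1)) Ω, (∀ i, (P i).IsHomogeneous (d i - 1)) ∧
      dvC D x (fun i => lf z * P i) = 0 ∧ Sv D x P β ∉ S := by
  sorry

end

end Pool.Agent.Helper74.CK
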