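import Pool.Agent.Helper74.CK.Defs

/-!
# CK-DDX: the derivation `DD D g = ∑ g_J D_J`

`DD_br`: the bracket of two such derivations, with `Chain_D` (`Helper10/CI/Chain.lean`: `Chain_coeff`,
`Chain_mul`): `D_g (∑ g'_J D_J z) = ∑ D_g(g'_J) D_J z + ∑ g'_J D_g(D_J z)` (Leibniz).
-/

set_option autoImplicit false

namespace Pool.Agent.Helper74.CK

open scoped BigOperators
open MvPolynomial
open Pool.Agent.Helper8.LG (Bdd form mon Ix)
open Pool.Agent.Helper49.LN (cP mo hf pl)
open Pool.Agent.Helper6.QS (dv ev lf dt Par RatP)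
open Pool.Agent.Helper10.CI

section

variable {Ω : Type*} [Field Ω] {N r : ℕ} {d : Fin r → ℕ}
  {D : Ix (Fin (N + 1)) d → Derivation ℤ Ω Ω} {a : Ix (Fin (N + 1)) d → Ω} {B : Subfield Ω}
  {x y w : Fin (N + 1) → Ω} {β : Fin (N + 1)}

theorem DD_apply (g : Fin r → MvPolynomial (Fin (N + 1)) Ω) (z : Ω) :
    DD D g z = ∑ q : Ix (Fin (N + 1)) d,
      coeff (Multiset.toFinsupp (q.2 : Multiset (Fin (N + 1)))) (g q.1) * D q z := by
  have h := congrFun (map_sum (Derivation.coeFnAddMonoidHom (R := ℤ) (A := Ω) (M := Ω))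
    (fun q : Ix (Fin (N + 1)) d =>
      coeff (Multiset.toFinsupp (q.2 : Multiset (Fin (N + 1)))) (g q.1) • D q) Finset.univ) z
  rw [Finset.sum_apply] at h
  exact h

theorem DD_x (x : Fin (N + 1) → Ω) (g : Fin r → MvPolynomial (Fin (N + 1)) Ω) :
    (fun l => DD D g (x l)) = dvC D x g := by
  funext l
  rw [DD_apply, dvC_apply, Finset.sum_apply, Fintype.sum_sigma]
  refine Finset.sum_congr rfl fun i _ => ?_
  rw [dv, Pool.Agent.Helper49.LN.cP_apply, Finset.sum_apply]
  rfl

theorem DD_a (hD : ∀ s t : Ix (Fin (N + 1)) d, D t (a s) = if s = t then 1 else 0)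
    (g : Fin r → MvPolynomial (Fin (N + 1)) Ω) (i : Fin r) (J : Sym (Fin (N + 1)) (d i)) :
    DD D g (a ⟨i, J⟩) = coeff (Multiset.toFinsupp (J : Multiset (Fin (N + 1)))) (g i) := by
  rw [DD_apply, Finset.sum_eq_single (⟨i, J⟩ : Ix (Fin (N + 1)) d)]
  · rw [hD, if_pos rfl, mul_one]
  · intro q _ hq
    rw [hD, if_neg (Ne.symm hq), mul_zero]
  · intro h
    exact absurd (Finset.mem_univ _) h

/-- the forms: `D_g F_i = g_i` -/
theorem DD_Fp (hD : ∀ s t : Ix (Fin (N + 1)) d, D t (a s) = if s = t then 1 else 0)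
    (g : Fin r → MvPolynomial (Fin (N + 1)) Ω) (i : Fin r) (hg : (g i).IsHomogeneous (d i)) :
    Chain_D (DD D g) (Fp a i) = g i := by
  ext n
  rw [Chain_coeff]
  by_cases hn : Multiset.card (Finsupp.toMultiset n) = d i
  · have h1 : coeff n (Fp a i) = a ⟨i, Sym.mk _ hn⟩ := by
      rw [Fp, coeff_sum, Finset.sum_eq_single (Sym.mk _ hn)]
      · rw [coeff_smul, smul_eq_mul, Pool.Agent.Helper49.LN.mo_eq, coeff_monomial, if_pos, mul_one]
        exact Finsupp.toMultiset_toFinsupp n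
      · intro J _ hJ
        rw [coeff_smul, smul_eq_mul, Pool.Agent.Helper49.LN.mo_eq, coeff_monomial, if_neg, mul_zero]
        intro h
        apply hJ
        apply Sym.coe_injective
        apply Multiset.toFinsupp.injective
        rw [h]
        exact (Finsupp.toMultiset_toFinsupp n).symm
      · intro h
        exact absurd (Finset.mem_univ _) h
    rw [h1, DD_a hD]
    congr 1
    exact Finsupp.toMultiset_toFinsupp n
  · have hdeg : n.degree ≠ d i := by
      intro h
      apply hn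
      rw [← h, Finsupp.card_toMultiset]
      rfl
    rw [(Fp_hom a i).coeff_eq_zero hdeg, hg.coeff_eq_zero hdeg, map_zero]

private theorem DDx_two (g g' : Fin r → MvPolynomial (Fin (N + 1)) Ω) (z : Ω) :
    DD D g (DD D g' z) = DD D (fun i => Chain_D (DD D g) (g' i)) z +
      ∑ q : Ix (Fin (N + 1)) d, ∑ q' : Ix (Fin (N + 1)) d,
        (coeff (Multiset.toFinsupp (q.2 : Multiset (Fin (N + 1)))) (g q.1) *
          coeff (Multiset.toFinsupp (q'.2 : Multiset (Fin (N + 1)))) (g' q'.1)) *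
          D q (D q' z) := by
  rw [DD_apply g' z, map_sum, DD_apply (fun i => Chain_D (DD D g) (g' i)) z, Finset.sum_comm,
    ← Finset.sum_add_distrib]
  refine Finset.sum_congr rfl fun q' _ => ?_
  rw [Derivation.leibniz, smul_eq_mul, smul_eq_mul, Chain_coeff, DD_apply g (D q' z),
    Finset.mul_sum, add_comm, mul_comm (D q' z)]
  congr 1
  refine Finset.sum_congr rfl fun q _ => ?_
  ring

theorem DD_br (g g' : Fin r → MvPolynomial (Fin (N + 1)) Ω) (x : Fin (N + 1) → Ω)
    (l : Fin (N + 1)) :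
    DD D g (DD D g' (x l)) - DD D g' (DD D g (x l)) =
      DD D (fun i => Chain_D (DD D g) (g' i)) (x l) -
        DD D (fun i => Chain_D (DD D g') (g i)) (x l) +
      ∑ q : Ix (Fin (N + 1)) d, ∑ q' : Ix (Fin (N + 1)) d,
        (coeff (Multiset.toFinsupp (q.2 : Multiset (Fin (N + 1)))) (g q.1) *
          coeff (Multiset.toFinsupp (q'.2 : Multiset (Fin (N + 1)))) (g' q'.1)) *
          cm D x q q' l := by
  rw [DDx_two g g', DDx_two g' g]
  have h : ∑ q : Ix (Fin (N + 1)) d, ∑ q' : Ix (Fin (N + 1)) d,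
        (coeff (Multiset.toFinsupp (q.2 : Multiset (Fin (N + 1)))) (g q.1) *
          coeff (Multiset.toFinsupp (q'.2 : Multiset (Fin (N + 1)))) (g' q'.1)) *
          cm D x q q' l =
      ∑ q : Ix (Fin (N + 1)) d, ∑ q' : Ix (Fin (N + 1)) d,
        (coeff (Multiset.toFinsupp (q.2 : Multiset (Fin (N + 1)))) (g q.1) *
          coeff (Multiset.toFinsupp (q'.2 : Multiset (Fin (N + 1)))) (g' q'.1)) *
          D q (D q' (x l)) -
      ∑ q : Ix (Fin (N + 1)) d, ∑ q' : Ix (Fin (N + 1)) d,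
        (coeff (Multiset.toFinsupp (q.2 : Multiset (Fin (N + 1)))) (g' q.1) *
          coeff (Multiset.toFinsupp (q'.2 : Multiset (Fin (N + 1)))) (g q'.1)) *
          D q (D q' (x l)) := by
    rw [Finset.sum_comm (f := fun q q' : Ix (Fin (N + 1)) d =>
        (coeff (Multiset.toFinsupp (q.2 : Multiset (Fin (N + 1)))) (g' q.1) *
          coeff (Multiset.toFinsupp (q'.2 : Multiset (Fin (N + 1)))) (g q'.1)) *
          D q (D q' (x l))), ← Finset.sum_sub_distrib]
    refine Finset.sum_congr rfl fun q _ => ?_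
    rw [← Finset.sum_sub_distrib]
    refine Finset.sum_congr rfl fun q' _ => ?_
    unfold cm
    ring
  rw [h]
  ring

end

end Pool.Agent.Helper74.CK
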