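import Pool.Agent.Helper64.CJ.Pl
import Pool.Agent.Helper10.CI.Chain
import Pool.Agent.Helper10.CI.DimArg

/-!
# CK: the end of the proof for `sum (d_i + 1) = 2 N - 1`, all `d_i`

`LineW`: through `x` goes a line `<x, y>` such that modulo `L = <x, w>` the vectors `D_(r_l P) x` depend
only on the restriction of `P` to the line, and all tangent vectors of weight one lie in `L`.
`DD D g`: the derivation `∑ g_J D_J`.
-/

set_option autoImplicit false

namespace Pool.Agent.Helper74.CK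

open scoped BigOperators
open MvPolynomial
open Pool.Agent.Helper8.LG (Bdd form mon Ix)
open Pool.Agent.Helper49.LN (cP mo hf pl)
open Pool.Agent.Helper6.QS (dv ev lf dt Par RatP)
open Pool.Agent.Helper10.CI

section

variable {Ω : Type*} [Field Ω] {N r : ℕ} {d : Fin r → ℕ}

/-- the combinations of `x` and `w` (for `x_0 = 1`, `w_0 = 0`) -/
def LL (x w : Fin (N + 1) → Ω) : Submodule Ω (Fin (N + 1) → Ω) where
  carrier := {v | ∃ c : Ω, pr x v = c • w}
  add_mem' := by
    rintro u v ⟨c, hc⟩ ⟨e, he⟩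
    refine ⟨c + e, ?_⟩
    rw [add_smul, ← hc, ← he]
    funext l
    simp only [pr, Pi.add_apply]
    ring
  zero_mem' := by
    refine ⟨0, ?_⟩
    funext l
    simp [pr]
  smul_mem' := by
    rintro b v ⟨c, hc⟩
    refine ⟨b * c, ?_⟩
    rw [mul_smul, ← hc]
    funext l
    simp only [pr, Pi.smul_apply, smul_eq_mul]
    ring

theorem mem_LL (x w v : Fin (N + 1) → Ω) : v ∈ LL x w ↔ ∃ c : Ω, pr x v = c • w := Iff.rfl

/-- the line through `x` and the tangent direction `w` -/
structure LineW (D : Ix (Fin (N + 1)) d → Derivation ℤ Ω Ω) (a : Ix (Fin (N + 1)) d → Ω)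
    (B : Subfield Ω) (x y w : Fin (N + 1) → Ω) (β : Fin (N + 1)) : Prop where
  x0 : x 0 = 1
  F0 : ∀ i, form (fun J => a ⟨i, J⟩) x = 0
  y0 : y 0 = 0
  yb : y β = 1
  w0 : w 0 = 0
  wT : w ∈ TT a x
  H : ∀ P l, ∃ c : Ω, pr x (Sv D x P l) = y l • pr x (Sv D x P β) + c • w
  W : ∀ v ∈ TT a x, Wt D B x 1 v → ∃ c : Ω, pr x v = c • w
  on : TT a x ≤ Submodule.span Ω (insert x (SS D B x))

/-- the derivation `∑ g_J D_J` -/
noncomputable def DD (D : Ix (Fin (N + 1)) d → Derivation ℤ Ω Ω)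
    (g : Fin r → MvPolynomial (Fin (N + 1)) Ω) : Derivation ℤ Ω Ω :=
  ∑ q : Ix (Fin (N + 1)) d,
    coeff (Multiset.toFinsupp (q.2 : Multiset (Fin (N + 1)))) (g q.1) • D q

/-- the bracket of two of the derivations at `x` -/
def cm (D : Ix (Fin (N + 1)) d → Derivation ℤ Ω Ω) (x : Fin (N + 1) → Ω)
    (I J : Ix (Fin (N + 1)) d) : Fin (N + 1) → Ω :=
  fun l => D I (D J (x l)) - D J (D I (x l))

variable {D : Ix (Fin (N + 1)) d → Derivation ℤ Ω Ω} {a : Ix (Fin (N + 1)) d → Ω} {B : Subfield Ω}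
  {x y w : Fin (N + 1) → Ω} {β : Fin (N + 1)}

theorem x_LL (hx : x 0 = 1) : x ∈ LL x w := by
  refine ⟨0, ?_⟩
  funext l
  simp [pr, hx]

theorem w_LL (w0 : w 0 = 0) : w ∈ LL x w := by
  refine ⟨1, ?_⟩
  funext l
  simp [pr, w0]

theorem LL_eq (hx : x 0 = 1) (w0 : w 0 = 0) : LL x w = Submodule.span Ω {x, w} := by
  apply le_antisymm
  · rintro v ⟨c, hc⟩
    have h1 : v = v 0 • x + c • w := by
      rw [← hc]
      funext l
      simp only [pr, Pi.add_apply, Pi.smul_apply, smul_eq_mul]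
      ring
    rw [h1]
    exact Submodule.add_mem _
      (Submodule.smul_mem _ _ (Submodule.subset_span (Set.mem_insert _ _)))
      (Submodule.smul_mem _ _ (Submodule.subset_span
        (Set.mem_insert_of_mem _ (Set.mem_singleton _))))
  · rw [Submodule.span_le]
    rintro v hv
    rcases hv with rfl | hv
    · exact x_LL hx
    · rw [Set.mem_singleton_iff] at hv
      subst hv
      exact w_LL w0

/-- a member of `LL` with vanishing coordinate `0` is a multiple of `w` -/
theorem LL_zero (v : Fin (N + 1) → Ω) (hv : v ∈ LL x w) (h0 : v 0 = 0) : ∃ c : Ω, v = c • w := by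
  obtain ⟨c, hc⟩ := hv
  refine ⟨c, ?_⟩
  rw [← hc]
  funext l
  simp [pr, h0]

theorem LineW.mem (h : LineW D a B x y w β) (P : Fin r → MvPolynomial (Fin (N + 1)) Ω)
    (l : Fin (N + 1)) : Sv D x P l - y l • Sv D x P β ∈ LL x w := by
  obtain ⟨c, hc⟩ := h.H P l
  refine ⟨c, ?_⟩
  have h1 : pr x (Sv D x P l - y l • Sv D x P β) =
      pr x (Sv D x P l) - y l • pr x (Sv D x P β) := by
    funext k
    simp only [pr, Pi.sub_apply, Pi.smul_apply, smul_eq_mul]
    ring
  rw [h1, hc, add_sub_cancel_left]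

end

end Pool.Agent.Helper74.CK
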