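import Pool.Agent.Helper74.CK.Defs

/-!
# CK-EQVL: equivariance modulo `L`

Copy of `Eqv_base`, `eqv` of `Helper10/CI/Eqv.lean` (`h.W` in the place of `hw1`, a submodule in the place
of `pr x`).
-/

set_option autoImplicit false

namespace Pool.Agent.Helper74.CK

open scoped BigOperators
open MvPolynomial
open Pool.Agent.Helper8.LG (Bdd form mon Ix)
open Pool.Agent.Helper49.LN (cP mo hf pl)
open Pool.Agent.Helper6.QS (dv ev lf dt Par RatP)
open Pool.Agent.Helper10.CI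

section

variable {Ω : Type*} [Field Ω] {N r : ℕ} {d : Fin r → ℕ}
  {D : Ix (Fin (N + 1)) d → Derivation ℤ Ω Ω} {a : Ix (Fin (N + 1)) d → Ω} {B : Subfield Ω}
  {x y w : Fin (N + 1) → Ω} {β : Fin (N + 1)}

theorem eqvL (hB : Frame D a B) (hd : ∀ i, 1 ≤ d i) (h : LineW D a B x y w β)
    (v ζ : Fin (N + 1) → Ω) :
    dvC D x (fun i => lf ζ * pdF a v i) + dt ζ x • v ∈ LL x w := by
  sorry

/-- `ζ = r_β` -/
theorem eqvL_r (hB : Frame D a B) (hd : ∀ i, 1 ≤ d i) (h : LineW D a B x y w β)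
    (v : Fin (N + 1) → Ω) : Sv D x (fun i => pdF a v i) β ∈ LL x w := by
  sorry

/-- `ζ = e_0` -/
theorem eqvL_0 (hB : Frame D a B) (hd : ∀ i, 1 ≤ d i) (h : LineW D a B x y w β)
    (v : Fin (N + 1) → Ω) : dvC D x (fun i => X 0 * pdF a v i) + v ∈ LL x w := by
  sorry

end

end Pool.Agent.Helper74.CK
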