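import Pool.Agent.Helper74.CK.EqvL
import Pool.Agent.Helper74.CK.PsiL

/-!
# CK-KERL: a direction `u` in `L` which is a zero of all the gradients on the line

As `exists_w`, `const_x` of `Helper10/CI/DimArg.lean`: the map `P ↦ Sv D x P β` into the quotient by `L`
has rank `≥ n - 1` (`h.on`, `h.mem`, `finrank_TT`, `finrank (LL x w) ≤ 2`), it depends only on `psi P`
(`psiL_sv`), and `DimArg_W` has dimension `≤ ∑ d_i = 2 n + r - 1`; so its kernel there has dimension `≤ N`
and contains all `psi (pdF a v)` (`eqvL_r`, `psiL_sv`). A kernel vector `u ≠ 0` lies in `L`: `eqvL_0` and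
`psiL_zero` for `X_0 pdF a u`.
-/

set_option autoImplicit false

namespace Pool.Agent.Helper74.CK

open scoped BigOperators
open MvPolynomial
open Pool.Agent.Helper8.LG (Bdd form mon Ix)
open Pool.Agent.Helper49.LN (cP mo hf pl)
open Pool.Agent.Helper6.QS (dv ev lf dt Par RatP)
open Pool.Agent.Helper10.CI

section

variable {Ω : Type*} [Field Ω] {N r n : ℕ} {d : Fin r → ℕ}
  {D : Ix (Fin (N + 1)) d → Derivation ℤ Ω Ω} {a : Ix (Fin (N + 1)) d → Ω} {B : Subfield Ω}
  {x y w : Fin (N + 1) → Ω} {β : Fin (N + 1)}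

theorem exists_u (hB : Frame D a B) (hn : n + r = N) (hn2 : 2 ≤ n) (hd : ∀ i, 1 ≤ d i)
    (hnum : ∑ i, (d i + 1) + 1 = 2 * N) (h : LineW D a B x y w β) :
    ∃ u : Fin (N + 1) → Ω, u ≠ 0 ∧ u ∈ LL x w ∧ ∀ i, psi x y β (pdF a u i) = 0 := by
  sorry

end

end Pool.Agent.Helper74.CK
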