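import Pool.Agent.Helper74.CK.Ux
import Pool.Agent.Helper74.CK.KerL
import Pool.Agent.Helper74.CK.Bnd

/-!
# CK-FINW: the end

`exists_u`, `off`, `on_line`: `psi (pdF a x i) = 0`; `path` for `x`: `F_i(s x + e y) = e ^ (d i) F_i(y)`;
`Lin_gen`: some `F_i(y) ≠ 0`; `bnd`.
-/

set_option autoImplicit false

namespace Pool.Agent.Helper74.CK

open scoped BigOperators
open MvPolynomial
open Pool.Agent.Helper8.LG (Bdd form mon Ix)
open Pool.Agent.Helper49.LN (cP mo hf pl)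
open Pool.Agent.Helper6.QS (dv ev lf dt Par RatP)
open Pool.Agent.Helper10.CI

section

variable {Ω : Type*} [Field Ω] [CharZero Ω] {N r n : ℕ} {d : Fin r → ℕ}
  {D : Ix (Fin (N + 1)) d → Derivation ℤ Ω Ω} {a : Ix (Fin (N + 1)) d → Ω} {B : Subfield Ω}
  {x y w : Fin (N + 1) → Ω} {β : Fin (N + 1)}

theorem fin_w (hB : Frame D a B) (hn : n + r = N) (hn4 : 4 ≤ n) (hd : ∀ i, 1 ≤ d i)
    (hnum : ∑ i, (d i + 1) + 1 = 2 * N) (h : LineW D a B x y w β) (t : ℕ) (ht : 2 ≤ t)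
    (hG : Pool.Agent.Helper64.CJ.ExpG D B x y t) : ∀ l, x l ∈ B := by
  sorry

end

end Pool.Agent.Helper74.CK
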