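import Pool.Agent.Helper74.CK.DDx
import Pool.Agent.Helper74.CK.EqvL
import Pool.Agent.Helper74.CK.PsiL

/-!
# CK-GRD: differentiating the gradients on the line

`g = z P`, `D_g x = D_g y = 0`, so `D_g` (on coefficients, `Chain_D`) commutes with `psi` (`psi_chain`). With
`psi (pdF a u i) = 0` and `D_g F_i = g_i` (`DD_Fp`): `0 = psi (pdF a (D_g u) i) + psi (∂_u g_i)`,
`∂_u (z P_i) = z(u) P_i + z ∂_u P_i`: `psi P_i = - psi (pdF a (D_g u) i)`; `psiL_sv` and `eqvL_r`.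
-/

set_option autoImplicit false

namespace Pool.Agent.Helper74.CK

open scoped BigOperators
open MvPolynomial
open Pool.Agent.Helper8.LG (Bdd form mon Ix)
open Pool.Agent.Helper49.LN (cP mo hf pl)
open Pool.Agent.Helper6.QS (dv ev lf dt Par RatP)
open Pool.Agent.Helper10.CI

section

variable {Ω : Type*} [Field Ω] {N r : ℕ} {d : Fin r → ℕ}
  {D : Ix (Fin (N + 1)) d → Derivation ℤ Ω Ω} {a : Ix (Fin (N + 1)) d → Ω} {B : Subfield Ω}
  {x y w : Fin (N + 1) → Ω} {β : Fin (N + 1)}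

theorem psi_chain (x y : Fin (N + 1) → Ω) (β : Fin (N + 1)) (δ : Derivation ℤ Ω Ω)
    (hx : ∀ l, δ (x l) = 0) (hy : ∀ l, δ (y l) = 0) (f : MvPolynomial (Fin (N + 1)) Ω) :
    Chain_D δ (psi x y β f) = psi x y β (Chain_D δ f) := by
  sorry

theorem chain_pdF (δ : Derivation ℤ Ω Ω) (u : Fin (N + 1) → Ω) (i : Fin r) :
    Chain_D δ (pdF a u i) =
      pdF a (fun l => δ (u l)) i + ∑ j, u j • pderiv j (Chain_D δ (Fp a i)) := by
  sorry

theorem grd (hB : Frame D a B) (hd : ∀ i, 1 ≤ d i) (h : LineW D a B x y w β)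
    (z : Fin (N + 1) → Ω) (hzx : dt z x = 0) (hzy : dt z y = 0)
    (P : Fin r → MvPolynomial (Fin (N + 1)) Ω) (hP : ∀ i, (P i).IsHomogeneous (d i - 1))
    (hg : dvC D x (fun i => lf z * P i) = 0)
    (hgy : ∀ l, DD D (fun i => lf z * P i) (y l) = 0)
    (u : Fin (N + 1) → Ω) (hzu : dt z u = 1) (hu : ∀ i, psi x y β (pdF a u i) = 0) :
    Sv D x P β ∈ LL x w := by
  sorry

end

end Pool.Agent.Helper74.CK
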