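import Pool.Agent.Helper74.CK.Defs

/-!
# CK-PATH: moving along the line in a direction in which the gradient vanishes

`q = s x + e y`, `u = α x + γ y`: `T ↦ F_i (q + T u)` is a polynomial in `T` with derivative `0`: the
algebra homomorphism `X_l ↦ C (q_l) + C (u_l) T` to `Polynomial Ω` (`aeval`) is `ρ ∘ psi x y β` with the
same `ρ` (`x_0 = 1`, `y_0 = 0`, `y_β = 1`), and the derivative of the image of `F_i` is the image of
`pdF a u i` (chain rule by `MvPolynomial.induction_on`). Characteristic `0`.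
-/

set_option autoImplicit false

namespace Pool.Agent.Helper74.CK

open scoped BigOperators
open MvPolynomial
open Pool.Agent.Helper8.LG (Bdd form mon Ix)
open Pool.Agent.Helper49.LN (cP mo hf pl)
open Pool.Agent.Helper6.QS (dv ev lf dt Par RatP)
open Pool.Agent.Helper10.CI

section

variable {Ω : Type*} [Field Ω] [CharZero Ω] {N r : ℕ} {d : Fin r → ℕ}
  {D : Ix (Fin (N + 1)) d → Derivation ℤ Ω Ω} {a : Ix (Fin (N + 1)) d → Ω} {B : Subfield Ω}
  {x y w : Fin (N + 1) → Ω} {β : Fin (N + 1)}

theorem path (x y : Fin (N + 1) → Ω) (hx : x 0 = 1) (hy : y 0 = 0) (β : Fin (N + 1))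
    (hβ : y β = 1) (i : Fin r) (α γ : Ω)
    (hu : psi x y β (pdF a (fun l => α * x l + γ * y l) i) = 0) (s e τ : Ω) :
    form (fun J => a ⟨i, J⟩) (fun l => (s * x l + e * y l) + τ * (α * x l + γ * y l)) =
      form (fun J => a ⟨i, J⟩) (fun l => s * x l + e * y l) := by
  sorry

end

end Pool.Agent.Helper74.CK
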