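import Pool.Agent.Helper74.CK.Brk
import Pool.Agent.Helper74.CK.Grd
import Pool.Agent.Helper74.CK.Chs
import Pool.Agent.Helper74.CK.Path

/-!
# CK-UX: `u` is a multiple of `x`

Assembly of (K4): if `u` is not on the line, `brk` and `chs` give `D_g y = 0`, and `grd` a contradiction;
if `u` is on the line, `path` and `Lin_gen` (not all the `F_i` vanish on the line).
-/

set_option autoImplicit false

namespace Pool.Agent.Helper74.CK

open scoped BigOperators
open MvPolynomial
open Pool.Agent.Helper8.LG (Bdd form mon Ix)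
open Pool.Agent.Helper49.LN (cP mo hf pl)
open Pool.Agent.Helper6.QS (dv ev lf dt Par RatP)
open Pool.Agent.Helper10.CI

section

variable {Ω : Type*} [Field Ω] {N r n : ℕ} {d : Fin r → ℕ}
  {D : Ix (Fin (N + 1)) d → Derivation ℤ Ω Ω} {a : Ix (Fin (N + 1)) d → Ω} {B : Subfield Ω}
  {x y w : Fin (N + 1) → Ω} {β : Fin (N + 1)}

/-- a linear form which separates `u` from the line -/
theorem sep (x y u : Fin (N + 1) → Ω) (hu : u ∉ Submodule.span Ω {x, y}) :
    ∃ z : Fin (N + 1) → Ω, dt z x = 0 ∧ dt z y = 0 ∧ dt z u = 1 := by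
  sorry

theorem fr_LL (hx : x 0 = 1) (w0 : w 0 = 0) : Module.finrank Ω (LL x w) ≤ 2 := by
  sorry

theorem off (hB : Frame D a B) (hn : n + r = N) (hn4 : 4 ≤ n) (hd : ∀ i, 1 ≤ d i)
    (h : LineW D a B x y w β) (u : Fin (N + 1) → Ω) (hu : ∀ i, psi x y β (pdF a u i) = 0) :
    u ∈ Submodule.span Ω {x, y} := by
  sorry

theorem on_line [CharZero Ω] (hB : Frame D a B) (hnum : ∑ i, (d i + 1) + 1 = 2 * N)
    (h : LineW D a B x y w β) (u : Fin (N + 1) → Ω) (hul : u ∈ Submodule.span Ω {x, y})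
    (hu : ∀ i, psi x y β (pdF a u i) = 0) : ∃ c : Ω, u = c • x := by
  sorry

end

end Pool.Agent.Helper74.CK
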